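import Mathlib
import Pool.Agent.Q104.Spec

/-!
# Edge-deleting Laplacian sparsifiers with unbounded relative spectral radius distortion
-/

set_option autoImplicit false

namespace Pool.Agent.Results.MP_7ca01f_co.Windmill

open Matrix Finset

section defs

variable {V : Type} [Fintype V] [DecidableEq V]

/-- the Laplacian of a weight matrix: weighted degrees minus weights -/
def wlap (w : Matrix V V ℝ) : Matrix V V ℝ := Matrix.diagonal (fun u => ∑ v, w u v) - w

/-- `w` is the weight matrix of a weighted graph `H` whose edges (the pairs of positive weight) form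
a proper subset of the edge set of `G` -/
structure IsEdgeDeleting (G : SimpleGraph V) (w : Matrix V V ℝ) : Prop where
  symm : ∀ u v, w u v = w v u
  nonneg : ∀ u v, 0 ≤ w u v
  sub : ∀ u v, w u v ≠ 0 → G.Adj u v
  proper : ∃ u v, G.Adj u v ∧ w u v = 0

/-- `w` is a `(1 ± ε)`-Laplacian sparsifier of `G` -/
def IsSparsifier (G : SimpleGraph V) [DecidableRel G.Adj] (ε : ℝ) (w : Matrix V V ℝ) : Prop :=
  ∀ x : V → ℝ, (1 - ε) * (x ⬝ᵥ (wlap (G.adjMatrix ℝ) *ᵥ x)) ≤ x ⬝ᵥ (wlap w *ᵥ x) ∧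
    x ⬝ᵥ (wlap w *ᵥ x) ≤ (1 + ε) * (x ⬝ᵥ (wlap (G.adjMatrix ℝ) *ᵥ x))

/-- the largest real eigenvalue -/
noncomputable def lam1 (A : Matrix V V ℝ) : ℝ := sSup {t : ℝ | ∃ x : V → ℝ, x ≠ 0 ∧ A *ᵥ x = t • x}

end defs

section general

variable {V : Type} [Fintype V] [DecidableEq V]

lemma le_lam1 {A : Matrix V V ℝ} (hA : A.IsHermitian) (x : V → ℝ) :
    x ⬝ᵥ (A *ᵥ x) ≤ lam1 A * (x ⬝ᵥ x) := by
  have hb : BddAbove {t : ℝ | ∃ x : V → ℝ, x ≠ 0 ∧ A *ᵥ x = t • x} := by
    refine (Set.finite_range hA.eigenvalues).bddAbove.mono ?_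
    rintro t ⟨y, hy, h⟩
    obtain ⟨j, hj⟩ := Q104.Spec.exists_eigenvalue hA hy h
    exact ⟨j, hj⟩
  have key : ∀ j, hA.eigenvalues j ≤ lam1 A := by
    intro j
    refine le_csSup hb ⟨Q104.Spec.ev hA j, ?_, Q104.Spec.mulVec_ev hA j⟩
    intro h
    have h1 := Q104.Spec.ev_dot hA j j
    rw [if_pos rfl, h] at h1
    simp at h1
  exact Q104.Spec.quad_le hA key x

lemma lam1_le [Nonempty V] {A : Matrix V V ℝ} (hA : A.IsHermitian) (T : ℝ)
    (h : ∀ x : V → ℝ, x ⬝ᵥ (A *ᵥ x) ≤ T * (x ⬝ᵥ x)) : lam1 A ≤ T := by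
  refine csSup_le ?_ ?_
  · obtain ⟨j⟩ := (inferInstance : Nonempty V)
    refine ⟨hA.eigenvalues j, Q104.Spec.ev hA j, ?_, Q104.Spec.mulVec_ev hA j⟩
    intro h
    have h1 := Q104.Spec.ev_dot hA j j
    rw [if_pos rfl, h] at h1
    simp at h1
  · rintro t ⟨y, hy, h2⟩
    have h3 := h y
    rw [h2, dotProduct_smul, smul_eq_mul] at h3
    have h4 : 0 < y ⬝ᵥ y := by
      refine lt_of_le_of_ne (Finset.sum_nonneg fun i _ => mul_self_nonneg _) ?_
      intro h5
      exact hy (dotProduct_self_eq_zero.mp h5.symm)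
    exact le_of_mul_le_mul_right h3 h4

lemma form_eq {w : Matrix V V ℝ} (hw : ∀ u v, w u v = w v u) (x : V → ℝ) :
    2 * (x ⬝ᵥ (wlap w *ᵥ x)) = ∑ u, ∑ v, w u v * (x u - x v) ^ 2 := by
  have h1 : x ⬝ᵥ (wlap w *ᵥ x) = ∑ u, ∑ v, (w u v * (x u * x u) - w u v * (x u * x v)) := by
    rw [wlap, Matrix.sub_mulVec, dotProduct_sub]
    simp only [Finset.sum_sub_distrib]
    congr 1
    · simp only [dotProduct, Matrix.mulVec_diagonal]
      refine Finset.sum_congr rfl fun u _ => ?_
      rw [← Finset.sum_mul]; ring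
    · simp only [dotProduct, Matrix.mulVec, Finset.mul_sum]
      refine Finset.sum_congr rfl fun u _ => Finset.sum_congr rfl fun v _ => ?_
      ring
  have h2 : x ⬝ᵥ (wlap w *ᵥ x) = ∑ u, ∑ v, (w u v * (x v * x v) - w u v * (x u * x v)) := by
    rw [h1, Finset.sum_comm]
    refine Finset.sum_congr rfl fun u _ => Finset.sum_congr rfl fun v _ => ?_
    rw [hw v u]; ring
  rw [two_mul]
  nth_rewrite 1 [h1]
  rw [h2, ← Finset.sum_add_distrib]
  refine Finset.sum_congr rfl fun u _ => ?_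
  rw [← Finset.sum_add_distrib]
  refine Finset.sum_congr rfl fun v _ => ?_
  ring

end general

section windmill

variable {M m : ℕ}

/-- the weights: hub weight `κ i` to the `i`-th vertex of each clique, weight one inside cliques -/
def W (κ : Fin m → ℝ) : Matrix (Option (Fin M × Fin m)) (Option (Fin M × Fin m)) ℝ :=
  Matrix.of fun u v => match u, v with
    | none, none => 0
    | none, some (_, i) => κ i
    | some (_, i), none => κ i
    | some (a, i), some (b, j) => if a = b ∧ i ≠ j then 1 else 0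

lemma W_symm (κ : Fin m → ℝ) (u v : Option (Fin M × Fin m)) : W κ u v = W κ v u := by
  rcases u with _ | ⟨a, i⟩ <;> rcases v with _ | ⟨b, j⟩ <;> simp [W, eq_comm]

/-- the windmill graph: a hub `none` joined to all vertices of `M` disjoint cliques of order `m` -/
def G (M m : ℕ) : SimpleGraph (Option (Fin M × Fin m)) where
  Adj u v := match u, v with
    | none, none => False
    | none, some _ => True
    | some _, none => True
    | some (a, i), some (b, j) => a = b ∧ i ≠ j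
  symm := ⟨by
    intro u v
    rcases u with _ | ⟨a, i⟩ <;> rcases v with _ | ⟨b, j⟩ <;> simp [eq_comm]⟩
  loopless := ⟨by
    intro u
    rcases u with _ | ⟨a, i⟩ <;> simp⟩

instance : DecidableRel (G M m).Adj := by
  intro u v
  rcases u with _ | ⟨a, i⟩ <;> rcases v with _ | ⟨b, j⟩ <;> unfold G <;> simp only <;>
    infer_instance

lemma adj_eq : (G M m).adjMatrix ℝ = W (fun _ => 1) := by
  ext u v
  rw [SimpleGraph.adjMatrix_apply]
  rcases u with _ | ⟨a, i⟩ <;> rcases v with _ | ⟨b, j⟩ <;> simp [W, G]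

/-- the form of the Laplacian, clique by clique -/
lemma form_W (κ : Fin m → ℝ) (x : Option (Fin M × Fin m) → ℝ) :
    x ⬝ᵥ (wlap (W κ) *ᵥ x) = ∑ a : Fin M, (∑ i, κ i * (x (some (a, i)) - x none) ^ 2
      + m * ∑ i, (x (some (a, i)) - x none) ^ 2 - (∑ i, (x (some (a, i)) - x none)) ^ 2) := by
  have h := form_eq (W_symm κ) x
  have h2 : ∑ u, ∑ v, W κ u v * (x u - x v) ^ 2 = 2 * ∑ a : Fin M,
      (∑ i, κ i * (x (some (a, i)) - x none) ^ 2
      + m * ∑ i, (x (some (a, i)) - x none) ^ 2 - (∑ i, (x (some (a, i)) - x none)) ^ 2) := by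
    simp only [Fintype.sum_option, Fintype.sum_prod_type]
    have e1 : W κ none (none : Option (Fin M × Fin m)) = 0 := rfl
    have e2 : ∀ (a : Fin M) (i : Fin m), W κ none (some (a, i)) = κ i := fun _ _ => rfl
    have e3 : ∀ (a : Fin M) (i : Fin m), W κ (some (a, i)) none = κ i := fun _ _ => rfl
    have e4 : ∀ (a : Fin M) (i : Fin m) (b : Fin M) (j : Fin m), W κ (some (a, i)) (some (b, j))
      = if a = b ∧ i ≠ j then 1 else 0 := fun _ _ _ _ => rfl
    simp only [e1, e2, e3, e4, zero_mul, zero_add]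
    have e5 : ∀ (a : Fin M) (i : Fin m), ∑ b : Fin M, ∑ j : Fin m,
        (if a = b ∧ i ≠ j then (1 : ℝ) else 0) * (x (some (a, i)) - x (some (b, j))) ^ 2
        = ∑ j : Fin m, ((x (some (a, i)) - x none) - (x (some (a, j)) - x none)) ^ 2 := by
      intro a i
      rw [Finset.sum_eq_single a]
      · refine Finset.sum_congr rfl fun j _ => ?_
        by_cases hij : i = j
        · subst hij; simp
        · simp [hij]
      · intro b _ hb
        simp [Ne.symm hb]
      · simp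
    simp only [e5]
    rw [Finset.mul_sum, ← Finset.sum_add_distrib]
    refine Finset.sum_congr rfl fun a _ => ?_
    set z : Fin m → ℝ := fun i => x (some (a, i)) - x none with hz
    have e6 : ∑ i, (κ i * z i ^ 2 + ∑ j, (z i - z j) ^ 2)
        = ∑ i, κ i * z i ^ 2 + (2 * m * ∑ i, z i ^ 2 - 2 * (∑ i, z i) ^ 2) := by
      rw [Finset.sum_add_distrib]
      congr 1
      have e7 : ∀ i, ∑ j, (z i - z j) ^ 2 = m * z i ^ 2 - 2 * z i * ∑ j, z j + ∑ j, z j ^ 2 := by
        intro i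
        have e8 : ∀ j, (z i - z j) ^ 2 = z i ^ 2 - 2 * z i * z j + z j ^ 2 := fun j => by ring
        simp only [e8, Finset.sum_add_distrib, Finset.sum_sub_distrib, Finset.sum_const,
          Finset.card_univ, Fintype.card_fin, nsmul_eq_mul, Finset.mul_sum]
      simp only [e7, Finset.sum_add_distrib, Finset.sum_sub_distrib, ← Finset.mul_sum,
        ← Finset.sum_mul, Finset.sum_const, Finset.card_univ, Fintype.card_fin, nsmul_eq_mul]
      ring
    have e9 : ∀ i, κ i * (x none - x (some (a, i))) ^ 2 = κ i * z i ^ 2 := fun i => by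
      simp only [hz]; ring
    simp only [e9]
    change ∑ i, κ i * z i ^ 2 + ∑ i, (κ i * z i ^ 2 + ∑ j, (z i - z j) ^ 2)
      = 2 * (∑ i, κ i * z i ^ 2 + m * ∑ i, z i ^ 2 - (∑ i, z i) ^ 2)
    rw [e6]
    ring
  linarith

/-- the inequality inside one clique -/
lemma clique_ineq (t : ℕ) (ht : 1 ≤ t) (hm : m = 8 * t ^ 2) (κ : Fin m → ℝ)
    (hκ : ∀ i, κ i = 0 ∨ κ i = 4) (hsum : ∑ i, κ i = m) (z : Fin m → ℝ) :
    |∑ i, κ i * z i ^ 2 - ∑ i, z i ^ 2|
      ≤ (1 / t) * ((m + 1) * ∑ i, z i ^ 2 - (∑ i, z i) ^ 2) := by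
  have ht0 : (1 : ℝ) ≤ t := by exact_mod_cast ht
  have hm' : (m : ℝ) = 8 * (t : ℝ) ^ 2 := by rw [hm]; push_cast; ring
  have hm0 : (0 : ℝ) < m := by rw [hm']; positivity
  set μ : ℝ := (∑ i, z i) / m with hμ
  set u : Fin m → ℝ := fun i => z i - μ with hu
  have hs : ∑ i, z i = m * μ := by rw [hμ]; field_simp
  have hu0 : ∑ i, u i = 0 := by
    simp only [hu, Finset.sum_sub_distrib, Finset.sum_const, Finset.card_univ, Fintype.card_fin,
      nsmul_eq_mul, hs]
    ring
  set U : ℝ := ∑ i, u i ^ 2 with hU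
  set K : ℝ := ∑ i, κ i * u i with hK
  set R : ℝ := ∑ i, κ i * u i ^ 2 with hR
  have hz2 : ∑ i, z i ^ 2 = m * μ ^ 2 + U := by
    have : ∀ i, z i ^ 2 = μ ^ 2 + 2 * μ * u i + u i ^ 2 := fun i => by simp only [hu]; ring
    simp only [this, Finset.sum_add_distrib, ← Finset.mul_sum, hu0, Finset.sum_const,
      Finset.card_univ, Fintype.card_fin, nsmul_eq_mul]
    ring
  have hkz : ∑ i, κ i * z i ^ 2 = m * μ ^ 2 + 2 * μ * K + R := by
    have : ∀ i, κ i * z i ^ 2 = μ ^ 2 * κ i + 2 * μ * (κ i * u i) + κ i * u i ^ 2 := fun i => by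
      simp only [hu]; ring
    simp only [this, Finset.sum_add_distrib, ← Finset.mul_sum, hsum]
    ring
  have hU0 : 0 ≤ U := Finset.sum_nonneg fun i _ => sq_nonneg _
  have hR0 : 0 ≤ R := Finset.sum_nonneg fun i _ => by
    rcases hκ i with h | h <;> rw [h] <;> nlinarith [sq_nonneg (u i)]
  have hR4 : R ≤ 4 * U := by
    rw [hR, hU, Finset.mul_sum]
    refine Finset.sum_le_sum fun i _ => ?_
    rcases hκ i with h | h <;> rw [h] <;> nlinarith [sq_nonneg (u i)]
  have hκ2 : ∑ i, κ i ^ 2 = 4 * m := by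
    have : ∀ i, κ i ^ 2 = 4 * κ i := by
      intro i
      rcases hκ i with h | h <;> rw [h] <;> norm_num
    simp only [this, ← Finset.mul_sum, hsum]
  have hK2 : K ^ 2 ≤ 4 * m * U := by
    have := Finset.sum_mul_sq_le_sq_mul_sq univ κ u
    rw [hκ2] at this
    exact this
  -- the cross term
  have hcross : |2 * μ * K| ≤ (1 / t) * (m * μ ^ 2) + 4 * t * U := by
    have hA : 0 ≤ (1 / t) * (m * μ ^ 2) := by positivity
    have hB : 0 ≤ 4 * t * U := by positivity
    apply abs_le_of_sq_le_sq _ (by linarith)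
    have h1 : ((1 / (t : ℝ)) * (m * μ ^ 2)) * (4 * t * U) = 4 * m * U * μ ^ 2 := by
      field_simp
    nlinarith [sq_nonneg ((1 / (t : ℝ)) * (m * μ ^ 2) - 4 * t * U), sq_nonneg μ,
      mul_le_mul_of_nonneg_right hK2 (sq_nonneg μ)]
  rw [hkz, hz2, hs]
  have hval : (m * μ ^ 2 + 2 * μ * K + R) - (m * μ ^ 2 + U) = 2 * μ * K + (R - U) := by ring
  have hRU : |R - U| ≤ 3 * U := by
    rw [abs_le]; constructor <;> linarith
  have hrhs : (1 / (t : ℝ)) * ((m + 1) * (m * μ ^ 2 + U) - (m * μ) ^ 2)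
      = (1 / t) * (m * μ ^ 2) + (1 / t) * ((m + 1) * U) := by ring
  have hcoef : 4 * (t : ℝ) + 3 ≤ (1 / t) * (m + 1) := by
    rw [hm', one_div, ← div_eq_inv_mul, le_div_iff₀ (by linarith)]
    nlinarith
  rw [hval, hrhs]
  refine (abs_add_le _ _).trans ?_
  have h5 : (4 * (t : ℝ) + 3) * U ≤ (1 / t) * (m + 1) * U := mul_le_mul_of_nonneg_right hcoef hU0
  nlinarith

/-- the form of the adjacency matrix -/
lemma quad_W (κ : Fin m → ℝ) (x : Option (Fin M × Fin m) → ℝ) :
    x ⬝ᵥ (W κ *ᵥ x) = 2 * x none * ∑ a : Fin M, ∑ i, κ i * x (some (a, i))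
      + ∑ a : Fin M, ((∑ i, x (some (a, i))) ^ 2 - ∑ i, x (some (a, i)) ^ 2) := by
  simp only [dotProduct, Matrix.mulVec, Fintype.sum_option, Fintype.sum_prod_type]
  have e1 : W κ none (none : Option (Fin M × Fin m)) = 0 := rfl
  have e2 : ∀ (a : Fin M) (i : Fin m), W κ none (some (a, i)) = κ i := fun _ _ => rfl
  have e3 : ∀ (a : Fin M) (i : Fin m), W κ (some (a, i)) none = κ i := fun _ _ => rfl
  have e4 : ∀ (a : Fin M) (i : Fin m) (b : Fin M) (j : Fin m), W κ (some (a, i)) (some (b, j))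
    = if a = b ∧ i ≠ j then 1 else 0 := fun _ _ _ _ => rfl
  simp only [e1, e2, e3, e4, zero_mul, zero_add]
  have e5 : ∀ (a : Fin M) (i : Fin m), ∑ b : Fin M, ∑ j : Fin m,
      (if a = b ∧ i ≠ j then (1 : ℝ) else 0) * x (some (b, j))
      = ∑ j : Fin m, x (some (a, j)) - x (some (a, i)) := by
    intro a i
    rw [Finset.sum_eq_single a]
    · rw [eq_sub_iff_add_eq, ← Finset.sum_erase_add _ _ (mem_univ i)]
      rw [← Finset.sum_erase_add (a := i) univ (fun j => x (some (a, j))) (mem_univ i)]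
      simp only [ne_eq, not_true_eq_false, and_false, if_false, zero_mul, add_zero]
      congr 1
      refine Finset.sum_congr rfl fun j hj => ?_
      rw [if_pos ⟨trivial, Ne.symm (Finset.ne_of_mem_erase hj)⟩, one_mul]
    · intro b _ hb
      simp [Ne.symm hb]
    · simp
  simp only [e5]
  have e6 : ∀ a : Fin M, ∑ i, x (some (a, i)) * (κ i * x none + (∑ j, x (some (a, j))
      - x (some (a, i)))) = x none * ∑ i, κ i * x (some (a, i))
      + ((∑ i, x (some (a, i))) ^ 2 - ∑ i, x (some (a, i)) ^ 2) := by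
    intro a
    have e7 : ∀ i, x (some (a, i)) * (κ i * x none + (∑ j, x (some (a, j)) - x (some (a, i))))
        = x none * (κ i * x (some (a, i))) + (x (some (a, i)) * ∑ j, x (some (a, j))
          - x (some (a, i)) ^ 2) := fun i => by ring
    simp only [e7, Finset.sum_add_distrib, Finset.sum_sub_distrib, ← Finset.mul_sum,
      ← Finset.sum_mul]
    ring
  simp only [e6, Finset.sum_add_distrib, ← Finset.mul_sum]
  ring

lemma W_herm (κ : Fin m → ℝ) : (W κ : Matrix (Option (Fin M × Fin m)) _ ℝ).IsHermitian := by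
  ext u v
  rw [Matrix.conjTranspose_apply, W_symm]
  rfl

lemma norm_eq (x : Option (Fin M × Fin m) → ℝ) : x ⬝ᵥ x = x none ^ 2
    + ∑ a : Fin M, ∑ i, x (some (a, i)) ^ 2 := by
  simp only [dotProduct, Fintype.sum_option, Fintype.sum_prod_type]
  congr 1
  · ring
  · refine Finset.sum_congr rfl fun a _ => Finset.sum_congr rfl fun i _ => ?_
    ring

/-- the upper bound for `G` -/
lemma lam_G (hm : 1 ≤ m) (hM : M = 9 * m) : lam1 (W (fun _ => 1) :
    Matrix (Option (Fin M × Fin m)) _ ℝ) ≤ 4 * m := by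
  have hm0 : (1 : ℝ) ≤ m := by exact_mod_cast hm
  have hM' : (M : ℝ) = 9 * m := by rw [hM]; push_cast; ring
  refine lam1_le (W_herm _) _ fun x => ?_
  rw [quad_W, norm_eq]
  simp only [one_mul]
  set c := x none
  set Z : ℝ := ∑ a : Fin M, ∑ i, x (some (a, i)) ^ 2 with hZ
  have h1 : ∑ a : Fin M, ((∑ i, x (some (a, i))) ^ 2 - ∑ i, x (some (a, i)) ^ 2)
      ≤ (m - 1) * Z := by
    rw [hZ, Finset.mul_sum]
    refine Finset.sum_le_sum fun a _ => ?_
    have := sq_sum_le_card_mul_sum_sq (s := univ) (f := fun i => x (some (a, i)))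
    rw [Finset.card_univ, Fintype.card_fin] at this
    linarith
  have h2 : (∑ a : Fin M, ∑ i, x (some (a, i))) ^ 2 ≤ 9 * m ^ 2 * Z := by
    have h3 := sq_sum_le_card_mul_sum_sq (s := (univ : Finset (Fin M × Fin m)))
      (f := fun p => x (some p))
    rw [Finset.card_univ, Fintype.card_prod, Fintype.card_fin, Fintype.card_fin,
      Fintype.sum_prod_type, Fintype.sum_prod_type] at h3
    push_cast at h3
    rw [hM'] at h3
    calc _ ≤ 9 * (m : ℝ) * m * Z := h3
      _ = 9 * m ^ 2 * Z := by ring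
  set S := ∑ a : Fin M, ∑ i, x (some (a, i))
  have hZ0 : 0 ≤ Z := Finset.sum_nonneg fun a _ => Finset.sum_nonneg fun i _ => sq_nonneg _
  have h4 : 2 * c * S ≤ 3 * m * c ^ 2 + 3 * m * Z := by
    have h5 : 3 * m * (2 * c * S) ≤ 3 * m * (3 * m * c ^ 2 + 3 * m * Z) := by
      nlinarith [sq_nonneg (3 * m * c - S)]
    exact le_of_mul_le_mul_left h5 (by linarith)
  have h6 : 0 ≤ m * c ^ 2 := by positivity
  nlinarith

lemma lam_G_pos (hm : 1 ≤ m) (hM : 1 ≤ M) : 0 < lam1 (W (fun _ => 1) :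
    Matrix (Option (Fin M × Fin m)) _ ℝ) := by
  have h1 := le_lam1 (W_herm (M := M) (m := m) (fun _ => (1 : ℝ))) (fun _ => 1)
  rw [quad_W, norm_eq] at h1
  simp only [Finset.sum_const, Finset.card_univ, Fintype.card_fin, nsmul_eq_mul, mul_one,
    one_pow] at h1
  set l := lam1 (W (fun _ => 1) : Matrix (Option (Fin M × Fin m)) _ ℝ)
  by_contra hneg
  push Not at hneg
  have hm0 : (1 : ℝ) ≤ m := by exact_mod_cast hm
  have hM0 : (1 : ℝ) ≤ M := by exact_mod_cast hM
  have h2 : l * (1 + M * (m : ℝ)) ≤ 0 :=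
    mul_nonpos_of_nonpos_of_nonneg hneg (by positivity)
  have h3 : 0 < 2 * ((M : ℝ) * m) := by positivity
  have h4 : 0 ≤ (M : ℝ) * ((m : ℝ) ^ 2 - m) := by
    have : 0 ≤ (m : ℝ) ^ 2 - m := by nlinarith
    positivity
  linarith

/-- the lower bound for `H` -/
lemma lam_H (t : ℕ) (ht : 1 ≤ t) (hm : m = 8 * t ^ 2) (hM : M = 9 * m) :
    6 * m ≤ lam1 (W (fun i => if i.val < 2 * t ^ 2 then 4 else 0) :
      Matrix (Option (Fin M × Fin m)) _ ℝ) := by
  have ht0 : (1 : ℝ) ≤ t := by exact_mod_cast ht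
  have hm' : (m : ℝ) = 8 * (t : ℝ) ^ 2 := by rw [hm]; push_cast; ring
  have hM' : (M : ℝ) = 72 * (t : ℝ) ^ 2 := by rw [hM]; push_cast; rw [hm']; ring
  set κ : Fin m → ℝ := fun i => if i.val < 2 * t ^ 2 then 4 else 0 with hκ
  set x : Option (Fin M × Fin m) → ℝ := fun p => match p with
    | none => 12 * (t : ℝ) ^ 2
    | some (_, i) => if i.val < 2 * t ^ 2 then 1 else 0 with hx
  have hcount : ∑ i : Fin m, (if i.val < 2 * t ^ 2 then (1 : ℝ) else 0) = 2 * t ^ 2 := by
    rw [Finset.sum_boole]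
    have : (univ.filter fun i : Fin m => i.val < 2 * t ^ 2).card = 2 * t ^ 2 := by
      rw [Fin.card_filter_val_lt]
      rw [hm]
      apply min_eq_right
      nlinarith
    rw [this]
    push_cast
    ring
  have h1 := le_lam1 (W_herm (M := M) κ) x
  rw [quad_W, norm_eq] at h1
  have e1 : x none = 12 * (t : ℝ) ^ 2 := rfl
  have e2 : ∀ (a : Fin M) (i : Fin m), x (some (a, i)) = if i.val < 2 * t ^ 2 then 1 else 0 :=
    fun _ _ => rfl
  have e3 : ∀ (a : Fin M) (i : Fin m), κ i * x (some (a, i))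
      = 4 * (if i.val < 2 * t ^ 2 then 1 else 0) := by
    intro a i
    rw [e2 a i, hκ]
    simp only
    split_ifs <;> norm_num
  have e4 : ∀ (a : Fin M) (i : Fin m), x (some (a, i)) ^ 2
      = (if i.val < 2 * t ^ 2 then 1 else 0) := by
    intro a i
    rw [e2 a i]
    split_ifs <;> norm_num
  have f1 : ∑ a : Fin M, ∑ i, κ i * x (some (a, i)) = M * (4 * (2 * (t : ℝ) ^ 2)) := by
    simp only [e3, ← Finset.mul_sum, hcount, Finset.sum_const, Finset.card_univ,
      Fintype.card_fin, nsmul_eq_mul]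
    ring
  have f2 : ∑ a : Fin M, ∑ i, x (some (a, i)) ^ 2 = M * (2 * (t : ℝ) ^ 2) := by
    simp only [e4, hcount, Finset.sum_const, Finset.card_univ, Fintype.card_fin, nsmul_eq_mul]
  have f3 : ∑ a : Fin M, ((∑ i, x (some (a, i))) ^ 2 - ∑ i, x (some (a, i)) ^ 2)
      = M * ((2 * (t : ℝ) ^ 2) ^ 2 - 2 * (t : ℝ) ^ 2) := by
    simp only [e4]
    simp only [e2, hcount, Finset.sum_const, Finset.card_univ, Fintype.card_fin, nsmul_eq_mul]
  rw [f1, f2, f3, e1, hM'] at h1
  rw [hm']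
  clear_value x κ
  have ht2 : (1 : ℝ) ≤ (t : ℝ) ^ 2 := by nlinarith
  set s : ℝ := (t : ℝ) ^ 2 with hs
  -- `h1 : 2 * 12 s * (4 * 72 s * 2 s) + 72 s ((2 s)^2 - 2 s) ≤ lam * ((12 s)^2 + 72 s * 2 s)`
  have h2 : 13824 * s ^ 3 ≤ lam1 (W (M := M) κ) * (288 * s ^ 2) := by
    have h3 : 0 ≤ 72 * s * ((2 * s) ^ 2 - 2 * s) := by
      have : 0 ≤ (2 * s) ^ 2 - 2 * s := by nlinarith
      positivity
    nlinarith
  have h4 : 48 * s * (288 * s ^ 2) ≤ lam1 (W (M := M) κ) * (288 * s ^ 2) := by nlinarith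
  have h5 : 48 * s ≤ lam1 (W (M := M) κ) := le_of_mul_le_mul_right h4 (by positivity)
  linarith

end windmill

/-- **Edge-deleting Laplacian sparsifiers whose spectral radius distortion is not `O (ε λ₁)`.** -/
theorem result : ∃ (V : ℕ → Type) (_ : ∀ n, Fintype (V n)) (_ : ∀ n, DecidableEq (V n))
    (G : ∀ n, SimpleGraph (V n)) (_ : ∀ n, DecidableRel (G n).Adj) (ε : ℕ → ℝ)
    (w : ∀ n, Matrix (V n) (V n) ℝ),
    (∀ n, (G n).Connected ∧ 0 < ε n ∧ ε n < 1 ∧ IsEdgeDeleting (G n) (w n) ∧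
      IsSparsifier (G n) (ε n) (w n)) ∧
    Filter.Tendsto (fun n => |lam1 (w n) - lam1 ((G n).adjMatrix ℝ)|
      / (ε n * lam1 ((G n).adjMatrix ℝ))) Filter.atTop Filter.atTop := by
  refine ⟨fun n => Option (Fin (9 * (8 * (n + 2) ^ 2)) × Fin (8 * (n + 2) ^ 2)),
    fun n => inferInstance, fun n => inferInstance, fun n => G _ _, fun n => inferInstance,
    fun n => 1 / ((n + 2 : ℕ) : ℝ), fun n => W (fun i => if i.val < 2 * (n + 2) ^ 2 then 4 else 0),
    ?_, ?_⟩
  · intro n
    set t := n + 2 with ht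
    have ht2 : (2 : ℝ) ≤ (t : ℝ) := by rw [ht]; push_cast; linarith [Nat.cast_nonneg (α := ℝ) n]
    have ht4 : 4 ≤ t ^ 2 := by rw [ht]; nlinarith
    refine ⟨?_, by positivity, ?_, ?_, ?_⟩
    · have h : ∀ x, (G (9 * (8 * t ^ 2)) (8 * t ^ 2)).Reachable none x := by
        intro x
        rcases x with _ | p
        · exact SimpleGraph.Reachable.refl _
        · exact SimpleGraph.Adj.reachable (by rcases p with ⟨a, i⟩; exact trivial)
      exact { preconnected := fun x y => (h x).symm.trans (h y), nonempty := ⟨none⟩ }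
    · rw [div_lt_one (by linarith)]; linarith
    · refine ⟨W_symm _, ?_, ?_, none, some (⟨0, by positivity⟩, ⟨8 * t ^ 2 - 1, Nat.sub_lt (by positivity) one_pos⟩), trivial, ?_⟩
      · intro u v
        rcases u with _ | ⟨a, i⟩ <;> rcases v with _ | ⟨b, j⟩ <;> simp only [W, Matrix.of_apply]
        · exact le_rfl
        all_goals split_ifs <;> norm_num
      · intro u v h
        rcases u with _ | ⟨a, i⟩ <;> rcases v with _ | ⟨b, j⟩
        · exact absurd rfl h
        · exact trivial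
        · exact trivial
        · by_contra hc
          exact h (if_neg hc)
      · change (if 8 * t ^ 2 - 1 < 2 * t ^ 2 then (4 : ℝ) else 0) = 0
        rw [if_neg (by omega)]
    · intro x
      rw [adj_eq, form_W, form_W]
      set m := 8 * t ^ 2 with hm
      set κ : Fin m → ℝ := fun i => if i.val < 2 * t ^ 2 then 4 else 0 with hκ
      have hκs : ∑ i, κ i = m := by
        have h1 : ∀ i : Fin m, κ i = 4 * (if i.val < 2 * t ^ 2 then 1 else 0) := by
          intro i; simp only [hκ]; split_ifs <;> norm_num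
        simp only [h1, ← Finset.mul_sum]
        rw [Finset.sum_boole]
        have : (univ.filter fun i : Fin m => i.val < 2 * t ^ 2).card = 2 * t ^ 2 := by
          rw [Fin.card_filter_val_lt]
          apply min_eq_right
          rw [hm]; omega
        rw [this, hm]
        push_cast
        ring
      have hκ04 : ∀ i, κ i = 0 ∨ κ i = 4 := by
        intro i; simp only [hκ]; split_ifs
        · right; rfl
        · left; rfl
      have key : ∀ a : Fin (9 * m), _ := fun a => clique_ineq t (by omega) hm κ hκ04 hκs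
        (fun i => x (some (a, i)) - x none)
      set FG : ℝ := ∑ a : Fin (9 * m), (∑ i, 1 * (x (some (a, i)) - x none) ^ 2
        + m * ∑ i, (x (some (a, i)) - x none) ^ 2 - (∑ i, (x (some (a, i)) - x none)) ^ 2) with hFG
      set FH : ℝ := ∑ a : Fin (9 * m), (∑ i, κ i * (x (some (a, i)) - x none) ^ 2
        + m * ∑ i, (x (some (a, i)) - x none) ^ 2 - (∑ i, (x (some (a, i)) - x none)) ^ 2) with hFH
      have h1 : |FH - FG| ≤ 1 / t * FG := by
        rw [hFH, hFG, ← Finset.sum_sub_distrib, Finset.mul_sum]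
        refine (Finset.abs_sum_le_sum_abs _ _).trans (Finset.sum_le_sum fun a _ => ?_)
        have h2 := key a
        simp only [one_mul] at h2 ⊢
        refine le_trans (le_of_eq ?_) (h2.trans (le_of_eq ?_))
        · congr 1; ring
        · ring
      rw [abs_le] at h1
      constructor
      · linarith [h1.1]
      · linarith [h1.2]
  · refine Filter.tendsto_atTop_mono (f := fun n : ℕ => ((n : ℝ)) / 2) ?_
      (Filter.Tendsto.atTop_div_const (by norm_num) tendsto_natCast_atTop_atTop)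
    intro n
    set t := n + 2 with ht
    have ht2 : (2 : ℝ) ≤ (t : ℝ) := by rw [ht]; push_cast; linarith [Nat.cast_nonneg (α := ℝ) n]
    have hn : (n : ℝ) ≤ t := by rw [ht]; push_cast; linarith
    set m := 8 * t ^ 2 with hm
    have hm1 : 1 ≤ m := by rw [hm]; have : 1 ≤ t ^ 2 := Nat.one_le_pow _ _ (by omega); omega
    have hm0 : (1 : ℝ) ≤ m := by exact_mod_cast hm1
    have hG := lam_G (M := 9 * m) hm1 rfl
    have hH := lam_H (M := 9 * m) t (by omega) hm rfl
    rw [adj_eq]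
    set lG := lam1 (W (fun _ => 1) : Matrix (Option (Fin (9 * m) × Fin m)) _ ℝ) with hlG
    set lH := lam1 (W (fun i => if i.val < 2 * t ^ 2 then 4 else 0) :
      Matrix (Option (Fin (9 * m) × Fin m)) _ ℝ) with hlH
    have hGpos : 0 < lG := lam_G_pos hm1 (by omega)
    rw [le_div_iff₀ (by positivity)]
    have h1 : (2 : ℝ) * m ≤ |lH - lG| := le_trans (by linarith) (le_abs_self _)
    have h2 : (n : ℝ) / 2 * (1 / (t : ℝ) * lG) ≤ 2 * m := by
      have h3 : (n : ℝ) / t ≤ 1 := by rw [div_le_one (by linarith)]; exact hn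
      have h4 : (n : ℝ) / 2 * (1 / (t : ℝ) * lG) = (n / t) * lG / 2 := by ring
      rw [h4]
      have h5 : (n : ℝ) / t * lG ≤ 1 * lG := mul_le_mul_of_nonneg_right h3 hGpos.le
      linarith
    linarith

end Pool.Agent.Results.MP_7ca01f_co.Windmill
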